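import Pool.Agent.TH683.RB.ChangedPP

/-!
# How many strings of a random oracle have to be changed to collapse one of the inclusions
`NP ∪ coNP ⊆ PP ⊆ PSPACE`?

An adversary who knows the random oracle `O` changes, for all large `n`, at most `g n` of the
strings of length at most `n`; the result is the oracle `A`.

* If for every `ε > 0` there are infinitely many `n` with `g n ≤ 2 ^ (n ^ ε)`, then, for almost
  every `O`, all these `A` satisfy `PP ⊄ PH` and `PSPACE ⊄ PP^PH/poly`; in particular both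
  inclusions are strict relative to `A`.
* Otherwise every oracle `O` (not only almost every one) can be changed in this way such that even
  `P = NP = coNP = PP = PSPACE` relative to `A`.
-/

set_option autoImplicit false

namespace Pool.Agent.Results.MP_153864_lc.ChangedStrings

open Pool.Agent.NPC Pool.Agent.H620R2.Gauge Pool.Agent.H943R3.PP Pool.Agent.TH683.RB
open Pool.Agent.H628R3.RO (randomOracle)
open Pool.Agent.W900.CH (Close)
open MeasureTheory

theorem result (g : ℕ → ℝ) :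
    ((∀ ε : ℝ, 0 < ε → ∃ᶠ n : ℕ in Filter.atTop, g n ≤ 2 ^ (n : ℝ) ^ ε) →
      ∀ᵐ O ∂randomOracle, ∀ A : Oracle, Close g O A →
        (∃ L, IsPP A L ∧ ¬ IsPH A L) ∧ (∃ L, IsPP A L ∧ ¬ (IsNP A L ∨ IsNP A Lᶜ)) ∧
        (∃ L, IsPSPACE A L ∧ ¬ WithAdvice (IsPPPH A) L) ∧ ∃ L, IsPSPACE A L ∧ ¬ IsPP A L) ∧
    ((¬ ∀ ε : ℝ, 0 < ε → ∃ᶠ n : ℕ in Filter.atTop, g n ≤ 2 ^ (n : ℝ) ^ ε) →
      ∀ O : Oracle, ∃ A : Oracle, Close g O A ∧ ∀ L, IsPSPACE A L → IsP A L) :=
  ⟨low_pp, high_pp⟩

end Pool.Agent.Results.MP_153864_lc.ChangedStrings
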