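import Pool.Agent.TH706.SD.Maj

/-!
# `PP` against Boolean combinations of `NP`, `BPP` and `SBP` predicates in linear time, with a stack

The model is the one of time-space lower bounds, extended by a stack: programs with nodes which
query one of `n` Boolean variables (any order, repetitions allowed), push or pop a symbol of any
alphabet, or output a bit (`Pool.Agent.W896.PD.PP`); `2 ^ s` nodes stand for space `s`, the number
of queries for the time. The height of the stack and the number of steps are not bounded. (With a
stack, polynomial time is as good as logarithmic space: these are the auxiliary pushdown machines
of Cook.)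

We give functions with computations of the type `PP` which are as simple as possible: a few
programs without a stack (at most `β n`, where `β` tends to infinity as slowly as one likes), each
of which reads the input once, in a fixed order, and has `β n * n` nodes, such that on every input
more than half of them give the right answer. These functions are, with `k n` queries, space
`n / β n` and an unlimited stack, no Boolean combinations of a constant number of predicates which
are given by the number of accepting programs (certificates, coin strings, ...) and by a threshold
with a gap: the predicate is true if at least `(1 + 1 / q) b` programs accept, and false if at most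
`b` programs do; here `b` may be as small as a `2 ^ (- n / β n)` part of the number of the programs.
Nondeterministic programs (`b < 1`; `n / β n` bits are guessed in the beginning), their complements,
randomised programs with two-sided error `1 / 2 - ε`, Merlin-Arthur games with an error that is
exponentially small in the length of the message of Merlin, and the class `SBP` are of this form.
So the functions separate `PP` from `NP ∪ coNP`, and even from the closure of `NP ∪ BPP ∪ SBP` under
reductions with a constant number of queries, for machines with an unlimited stack, sublinear space
and linearly many reads.

The starting result `LinearTimeMajority` is the case without a stack; its functions (the majority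
of `2 d + 1` random quadratic forms in blocks) and its treatment of the Boolean combinations are
used.  New is that conjunctions of a constant number of programs with a stack are treated: the
computation tree of a program with a stack is cut canonically (where `⌊size / t⌋` changes), which
partitions the inputs into `2 ^ (O(S r))` sets of inputs with `O(r)` blocks of queries
(`Pool.Agent.TH706.CD`), and the common refinement for several programs is compared, pattern by
pattern, with the one-sided covering of `Pool.Agent.H554R2.Rnd` (`Pool.Agent.TH706.SD.Det`).
-/

set_option autoImplicit false

namespace Pool.Agent.Results.MP_153864_lc.MajorityStack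

open Pool.Agent.H554R2.Sem Pool.Agent.H554R2.Coin
open Pool.Agent.W896.PD (PP)

/-- The program `P` with a stack accepts the input `x` after at most `τ` queries (and any number of
pushes and pops). -/
def Acc {n : ℕ} (P : PP (Fin n) Bool) (τ : ℕ) (x : Pt n) : Prop :=
  ∃ l, P.Comp x l true ∧ l.length ≤ τ

/-- The function `f` has a one-pass computation of the type `PP`: there are `J ≤ D` programs
without a stack and with at most `D * n` nodes, each of which reads on all inputs the same variables
in the same order, each variable at most once, and on every input `x` more than half of the
programs have the output `f x`. -/
def OnePassPP (n D : ℕ) (f : Pt n → Bool) : Prop :=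
  ∃ (J : ℕ) (V : Fin J → BP (Fin n) Bool), J ≤ D ∧
    (∀ j, Fintype.card (V j).State ≤ D * n ∧
      ∃ l : List (Fin n), l.Nodup ∧ ∀ x : Pt n, ∃ b, (V j).Comp x l b) ∧
    ∀ x, J < 2 * Nat.card {j // ∃ l, (V j).Comp x l (f x)}

/-- The function `f` is not a Boolean combination `g` of `s` predicates of the following kind, with
at most `k * n` queries, space `n / D` and an unlimited stack.  The predicate `i` is given by `I i`
programs `P i ω` with a stack and at most `2 ^ (n / D)` nodes and a threshold `b i > 0` with
`I i ≤ b i * 2 ^ (n / D)`; it is true if at least `(1 + 1 / q) * b i` of the programs accept within
`τ ≤ k * n` queries, and false if at most `b i` of them do; otherwise it is not defined.  So for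
some `x` one of the predicates is not defined, or they are defined and `g` of their values is not
`f x`. -/
def NoCombination (n k s q D : ℕ) (f : Pt n → Bool) : Prop :=
  ∀ τ ≤ k * n, ∀ (I : Fin s → ℕ) (b : Fin s → ℝ) (P : ∀ i, Fin (I i) → PP (Fin n) Bool),
    (∀ i, 0 < b i ∧ (I i : ℝ) ≤ b i * 2 ^ (n / D)) →
    (∀ i ω, Fintype.card (P i ω).State ≤ 2 ^ (n / D)) → ∀ g : (Fin s → Bool) → Bool,
    ∃ x, (∃ i, b i < Nat.card {ω // Acc (P i ω) τ x} ∧
        q * Nat.card {ω // Acc (P i ω) τ x} < (q + 1) * b i) ∨
      g (fun i => decide ((q + 1) * b i ≤ q * Nat.card {ω // Acc (P i ω) τ x})) ≠ f x

/-- Let `β n` tend to infinity, as slowly as one likes.  There is a family of Boolean functions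
`F n` such that for all constants `k`, `s`, `q` and all large `n` the function `F n` has a one-pass
computation of the type `PP` with at most `β n` programs with `β n * n` nodes (and no stack), but
is no Boolean combination of `s` threshold predicates with the gap `1 + 1 / q` given by programs
with an unlimited stack, with `k n` queries and space `n / β n`. -/
theorem result (β : ℕ → ℕ) (hβ : Filter.Tendsto β Filter.atTop Filter.atTop) :
    ∃ F : ∀ n, Pt n → Bool, ∀ k s q : ℕ, ∃ N, ∀ n ≥ N,
      OnePassPP n (β n) (F n) ∧ NoCombination n k s q (β n) (F n) := by
  obtain ⟨F, hF⟩ := Pool.Agent.TH706.SD.maj_family β hβ
  refine ⟨F, fun k s q => ?_⟩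
  obtain ⟨N, hN⟩ := hF k s q
  refine ⟨N, fun n hn => ⟨(hN n hn).1, ?_⟩⟩
  intro τ hτ I b P hI hP g
  obtain ⟨v, x, hx, h⟩ := (hN n hn).2 τ hτ I b P hI hP g
  refine ⟨x, h.imp (fun h => h) fun h1 h2 => h1 ?_⟩
  have hx' : F n x = v := hx
  rw [← hx']
  exact h2

end Pool.Agent.Results.MP_153864_lc.MajorityStack
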