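import Pool.Agent.TH925.DP.Final

/-!
# MP_153864_lc: `PP = NP ∪ coNP` and invertible matrices with prescribed zeros over a finite field

`InPPc` (the class `PP`) is defined in `Pool/Agent/H578R2/Med/PP.lean`, `InCoNP` in
`Pool/Agent/NPC/Classes.lean`, `InNP`, `PolyTime` (Mathlib Turing machines), the bit code `bits` and
the language `lang P` of a property in `Pool/Agent/NPC/Defs.lean`, and `invCount` in
`Pool/Agent/TH925/DP/Table.lean`: for a table `B` of truth values with `N` rows, `invCount p B` is
the number of the invertible `N × N` matrices over `ZMod p` which are zero wherever the table has
the entry `false` (missing entries of the table count as `false`).  For `p = 2` this is the number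
of the subgraphs of a bipartite graph with an odd number of perfect matchings.

The permanent of a 0-1 matrix is computed from one such number: every cell is replaced by a path
with `k` new indices, with `k + 1` entries `x` along the path and `k` diagonal entries `d`; so the
determinant becomes the sum over the permutations of plus or minus the product of the `x` of the
cells on the permutation and of the `d` of the other cells.  All `x` of a cell (all `d`) are
different from zero only with exponentially small probability, both only with its square; so almost
all invertible matrices belong to exactly one permutation, each permutation has the same number of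
them, and the others are less than this number if `k = (p - 1) (4 n ^ 2 + 2)`.
-/

namespace Pool.Agent.Results.MP_153864_lc.PrescribedZeros

open Pool.Agent.NPC Pool.Agent.NPC.Med Pool.Agent.TH925.DP

/-- **Q1 and the numbers of invertible matrices with prescribed zeros.** Let `p` be a prime and let
`D` be the language of the pairs (table of truth values, `m`) such that more than `m` matrices over
`ZMod p` with zeros at the entries `false` of the table are invertible.  Then `D` is in `PP`;
`PP = NP ∪ coNP` iff `D ∈ NP ∩ coNP`, and iff there is a language in `NP` which decides for all
tables and all `m` whether there are exactly `m` such matrices. -/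
theorem result (p : ℕ) (hp : p.Prime) :
    InPPc (lang fun x : List (List Bool) × ℕ => x.2 < invCount p x.1) ∧
    ((∀ L : Set (List Bool), InPPc L ↔ InNP L ∨ InCoNP L) ↔
      InNP (lang fun x : List (List Bool) × ℕ => x.2 < invCount p x.1) ∧
      InCoNP (lang fun x : List (List Bool) × ℕ => x.2 < invCount p x.1)) ∧
    ((∀ L : Set (List Bool), InPPc L ↔ InNP L ∨ InCoNP L) ↔
      ∃ A : Set (List Bool), InNP A ∧ ∀ (B : List (List Bool)) (m : ℕ),
        bits (B, m) ∈ A ↔ invCount p B = m) :=
  haveI : Fact p.Prime := ⟨hp⟩
  Pool.Agent.NPC.TH925DP.main p

end Pool.Agent.Results.MP_153864_lc.PrescribedZeros
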