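import Pool.Agent.TH925.SI.PP

/-!
# MP_153864_lc: `PP = NP ∪ coNP` and the numbers of matchings of split interval graphs

`InPPc` (the class `PP`) is defined in `Pool/Agent/H578R2/Med/PP.lean`, `InCoNP` in
`Pool/Agent/NPC/Classes.lean`, `InNP`, `PolyTime` (Mathlib Turing machines), the bit code `bits` and
the language `lang P` of a property in `Pool/Agent/NPC/Defs.lean`, the interval graph of a list of
intervals, its number `pm` of perfect matchings and `IsSplit` in `Pool/Agent/H549R2/PM8.lean`, and
the number `numM` of all matchings in `Pool/Agent/TH925/SI/Graph.lean`.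

The satisfying assignments of a formula are counted from the numbers of (perfect) matchings of
polynomially many split interval graphs.  For perfect matchings the reduction is in
`Pool/Agent/H549R2`.  For all matchings: with `m` additional universal vertices the generating
polynomial `P` of the matchings by the number of unmatched vertices becomes the `m`-th iterate of
`P ↦ X P + P'`, the number of matchings is its value at `1`, and `P(0)`, the number of perfect
matchings, is recovered from these values by the inversion formula in
`Pool/Agent/TH925/SI/Series.lean`.  A certificate for a member of a language in `PP` consists of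
the numbers for the graphs of the reduction and of certificates for these numbers.
-/

namespace Pool.Agent.Results.MP_153864_lc.SplitInterval

open Pool.Agent.NPC Pool.Agent.NPC.Med Pool.Agent.H549R2.PM Pool.Agent.TH925.SI

/-- **Q1 and the numbers of matchings of split interval graphs.**
(1) The language `D` of the pairs (list of intervals whose interval graph is a split graph, `k`)
such that this graph has more than `k` matchings is in `PP`; `PP = NP ∪ coNP` iff `D ∈ NP ∩ coNP`,
and iff there is a language `A` in `NP` which decides for all split interval graphs and all `k`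
whether the graph has exactly `k` matchings.
(2) The same for perfect matchings. -/
theorem result :
    (InPPc (lang fun x : List (ℕ × ℕ) × ℕ => IsSplit (intervalGraph x.1) ∧ x.2 < numM x.1) ∧
    ((∀ L : Set (List Bool), InPPc L ↔ InNP L ∨ InCoNP L) ↔
      InNP (lang fun x : List (ℕ × ℕ) × ℕ => IsSplit (intervalGraph x.1) ∧ x.2 < numM x.1) ∧
      InCoNP (lang fun x : List (ℕ × ℕ) × ℕ => IsSplit (intervalGraph x.1) ∧ x.2 < numM x.1)) ∧
    ((∀ L : Set (List Bool), InPPc L ↔ InNP L ∨ InCoNP L) ↔
      ∃ A : Set (List Bool), InNP A ∧ ∀ (l : List (ℕ × ℕ)) (k : ℕ),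
        IsSplit (intervalGraph l) → (bits (l, k) ∈ A ↔ numM l = k))) ∧
    (InPPc (lang fun x : List (ℕ × ℕ) × ℕ => IsSplit (intervalGraph x.1) ∧ x.2 < pm x.1) ∧
    ((∀ L : Set (List Bool), InPPc L ↔ InNP L ∨ InCoNP L) ↔
      InNP (lang fun x : List (ℕ × ℕ) × ℕ => IsSplit (intervalGraph x.1) ∧ x.2 < pm x.1) ∧
      InCoNP (lang fun x : List (ℕ × ℕ) × ℕ => IsSplit (intervalGraph x.1) ∧ x.2 < pm x.1)) ∧
    ((∀ L : Set (List Bool), InPPc L ↔ InNP L ∨ InCoNP L) ↔
      ∃ A : Set (List Bool), InNP A ∧ ∀ (l : List (ℕ × ℕ)) (k : ℕ),
        IsSplit (intervalGraph l) → (bits (l, k) ∈ A ↔ pm l = k))) :=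
  ⟨Pool.Agent.NPC.TH925SI.pp_numM, Pool.Agent.NPC.TH925SI.pp_pm⟩

end Pool.Agent.Results.MP_153864_lc.SplitInterval
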